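import Pool.Agent.H44.Tys.Red

/-!
# The coordinate bound for finitely solvable sum-product systems

If a system of equations of the forms `x_i = 1`, `x_i + x_j = x_k`, `x_i * x_j = x_k` in `n`
unknowns has only finitely many solutions in `ℂⁿ`, then all coordinates of all its solutions have
absolute value at most `2 ^ (2 ^ (n - 1))`.
-/

open H44.Tys in
theorem Pool.Agent.Results.MP_fbd27d_al.BoundHolds.result (n : ℕ) (S : Set (Eqn n))
    (hfin : (Solutions S).Finite) (x : Fin n → ℂ) (hx : x ∈ Solutions S) (i : Fin n) :
    ‖x i‖ ≤ 2 ^ 2 ^ (n - 1) :=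
  main_bound S hfin x hx i
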